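import Pool.Agent.H39.TU.RAM
import Pool.Agent.H83.TU.Base

/-!
# [H36 ZO Ord] THEOREM Z0 (MP_e49dc9_ag): orders at one place bound the growth of the powers of a space from below

`p` a place of `E` over `F` with residue field of finite degree `d`, `V ⊆ E` finite dimensional, `V ^ j ⊆ W`: `j dim V ≤ d (dim W + j)`.
PROOF. `S` = the set of the orders of the elements of `V`: `dim V ≤ d |S|`, and `V ^ j` has elements of `j (|S| - 1)` different orders.
-/

set_option autoImplicit false

namespace Pool.Agent.H36.ZO

open Pool.Agent.H54.RV Pool.Agent.H83.TU Pool.Agent.H39.TU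

variable {F E : Type} [Field F] [Field E] [Algebra F E]

/-- the orders of the elements of a space -/
private def Os (p : Place F E) (V : Submodule F E) : Set ℤ := {m | ∃ v ∈ V, v ≠ 0 ∧ p.ord v = m}

/-- elements of different orders are independent -/
private theorem ord_ind {ι : Type} (p : Place F E) (f : ι → E) (h0 : ∀ i, f i ≠ 0)
    (hi : Function.Injective fun i => p.ord (f i)) : LinearIndependent F f := by
  rw [linearIndependent_iff']
  intro s g hg i his
  have h1 := sum_ne p s (fun i => g i • f i) (fun i _ j _ hi0 hj0 hij => by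
    have hgi : g i ≠ 0 := fun h => hi0 (by rw [h, zero_smul])
    have hgj : g j ≠ 0 := fun h => hj0 (by rw [h, zero_smul])
    rw [Algebra.smul_def, Algebra.smul_def, ord_mul p _ _ (by simpa using hgi) (h0 i),
      ord_mul p _ _ (by simpa using hgj) (h0 j), ord_base p _ hgi, ord_base p _ hgj, zero_add, zero_add] at hij
    exact hi hij) hg i his
  rcases smul_eq_zero.1 h1 with h2 | h2
  · exact h2
  · exact absurd h2 (h0 i)

private theorem os_fin (p : Place F E) (V : Submodule F E) [FiniteDimensional F V] : (Os p V).Finite := by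
  classical
  by_contra hinf
  have hinf' : (Os p V).Infinite := hinf
  obtain ⟨t, ht, htc⟩ := hinf'.exists_subset_card_eq (Module.finrank F V + 1)
  choose f hf h0 ho using fun m : t => ht m.2
  have h1 : LinearIndependent F f := ord_ind p f h0 (fun a b hab => by
    simp only [ho] at hab
    exact Subtype.ext hab)
  have h2 : LinearIndependent F fun m : t => (⟨f m, hf m⟩ : V) := LinearIndependent.of_comp V.subtype h1
  have h3 := h2.fintype_card_le_finrank
  rw [Fintype.card_coe, htc] at h3
  omega

/-- the dimension is bounded by the number of the orders -/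
private theorem rk_le (p : Place F E) (hp : 0 < deg p) (S : Finset ℤ) :
    ∀ V : Submodule F E, FiniteDimensional F V → (∀ v ∈ V, v ≠ 0 → p.ord v ∈ S) →
      Module.finrank F V ≤ deg p * S.card := by
  classical
  have hfin : FiniteDimensional F (IsLocalRing.ResidueField p.R) := Module.finite_of_finrank_pos hp
  induction S using Finset.induction_on_min with
  | empty =>
    intro V _ hV
    have h1 : V = ⊥ := by
      rw [eq_bot_iff]
      intro v hv
      by_contra h0
      exact absurd (hV v hv (fun h => h0 (by rw [h]; exact Submodule.zero_mem _))) (Finset.notMem_empty _)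
    rw [h1]
    simp
  | insert a s has ih =>
    intro V hVf hV
    obtain ⟨t, ht0, ht⟩ := ord_unif p
    have hta : t ^ (-a) ≠ 0 := zpow_ne_zero _ ht0
    have hmem : ∀ v ∈ V, v * t ^ (-a) ∈ p.R := by
      intro v hv
      by_cases h0 : v = 0
      · rw [h0, zero_mul]
        exact p.R.zero_mem
      · rw [← ord_nonneg p _ (mul_ne_zero h0 hta), ord_mul p _ _ h0 hta, ord_zpow p t ht0, ht]
        have h1 := hV v hv h0
        rw [Finset.mem_insert] at h1
        rcases h1 with h1 | h1
        · omega
        · have := has _ h1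
          omega
    let φ : V →ₗ[F] IsLocalRing.ResidueField p.R :=
      { toFun := fun v => IsLocalRing.residue p.R ⟨(v : E) * t ^ (-a), hmem v v.2⟩
        map_add' := fun v w => by
          rw [← map_add]
          congr 1
          apply Subtype.ext
          show ((v : E) + w) * t ^ (-a) = (v : E) * t ^ (-a) + (w : E) * t ^ (-a)
          ring
        map_smul' := fun c v => by
          rw [RingHom.id_apply, Algebra.smul_def]
          have h1 : algebraMap F (IsLocalRing.ResidueField p.R) c =
              IsLocalRing.residue p.R (algebraMap F p.R c) := rfl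
          rw [h1, ← map_mul]
          congr 1
          apply Subtype.ext
          show (c • (v : E)) * t ^ (-a) = algebraMap F E c * ((v : E) * t ^ (-a))
          rw [Algebra.smul_def]
          ring }
    have hker : ∀ v : V, φ v = 0 → (v : E) ≠ 0 → p.ord (v : E) ∈ s := by
      intro v hv h0
      have h1 := hV v v.2 h0
      rw [Finset.mem_insert] at h1
      rcases h1 with h1 | h1
      · exfalso
        have h2 : (⟨(v : E) * t ^ (-a), hmem v v.2⟩ : p.R) ∈ IsLocalRing.maximalIdeal p.R :=
          (IsLocalRing.residue_eq_zero_iff _).1 hv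
        rw [IsLocalRing.mem_maximalIdeal, mem_nonunits_iff] at h2
        apply h2
        have h3 : p.ord ((v : E) * t ^ (-a)) = 0 := by
          rw [ord_mul p _ _ h0 hta, ord_zpow p t ht0, ht]
          omega
        rw [ord_eq_zero p _ (mul_ne_zero h0 hta)] at h3
        refine isUnit_iff_exists_inv.2 ⟨⟨((v : E) * t ^ (-a))⁻¹, h3.2⟩, ?_⟩
        apply Subtype.ext
        exact mul_inv_cancel₀ (mul_ne_zero h0 hta)
      · exact h1
    have h1 := LinearMap.finrank_range_add_finrank_ker φ
    have h2 : Module.finrank F (LinearMap.range φ) ≤ deg p := Submodule.finrank_le _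
    have h3 : Module.finrank F ((LinearMap.ker φ).map V.subtype) = Module.finrank F (LinearMap.ker φ) :=
      ((LinearMap.ker φ).equivMapOfInjective V.subtype V.injective_subtype).finrank_eq.symm
    have h4 := ih ((LinearMap.ker φ).map V.subtype) inferInstance (by
      rintro v ⟨w, hw, rfl⟩ h0
      exact hker w hw h0)
    rw [Finset.card_insert_of_notMem (fun h => lt_irrefl _ (has a h))]
    rw [h3] at h4
    calc Module.finrank F V ≤ deg p + deg p * s.card := by omega
      _ = _ := by ring

/-- the powers of a space have many orders -/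
private theorem pow_ge (p : Place F E) {V W : Submodule F E} [FiniteDimensional F W] {j : ℕ} (hW : V ^ j ≤ W)
    {s : ℕ} (f : Fin (s + 1) → E) (hf : ∀ i, f i ∈ V) (h0 : ∀ i, f i ≠ 0)
    (hm : StrictMono fun i => p.ord (f i)) : j * s ≤ Module.finrank F W := by
  classical
  let g : Fin j × Fin s → E := fun q => f (Fin.last s) ^ (q.1 : ℕ) * (f q.2.castSucc * f 0 ^ (j - 1 - (q.1 : ℕ)))
  have hg0 : ∀ q, g q ≠ 0 := fun q => mul_ne_zero (pow_ne_zero _ (h0 _)) (mul_ne_zero (h0 _) (pow_ne_zero _ (h0 _)))
  have hgo : ∀ q : Fin j × Fin s, p.ord (g q) = (q.1 : ℕ) * p.ord (f (Fin.last s)) +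
      (p.ord (f q.2.castSucc) + (j - 1 - (q.1 : ℕ) : ℕ) * p.ord (f 0)) := by
    intro q
    show p.ord (f (Fin.last s) ^ (q.1 : ℕ) * (f q.2.castSucc * f 0 ^ (j - 1 - (q.1 : ℕ)))) = _
    rw [ord_mul p _ _ (pow_ne_zero _ (h0 _)) (mul_ne_zero (h0 _) (pow_ne_zero _ (h0 _))),
      ord_mul p _ _ (h0 _) (pow_ne_zero _ (h0 _)), ord_powN p _ (h0 _), ord_powN p _ (h0 _)]
  have hgm : ∀ q, g q ∈ W := by
    intro q
    apply hW
    have h1 : V ^ j = V ^ (q.1 : ℕ) * (V ^ 1 * V ^ (j - 1 - (q.1 : ℕ))) := by
      rw [← pow_add, ← pow_add]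
      congr 1
      have := q.1.2
      omega
    rw [h1]
    exact Submodule.mul_mem_mul (Submodule.pow_mem_pow V (hf _) _)
      (Submodule.mul_mem_mul (by rw [pow_one]; exact hf _) (Submodule.pow_mem_pow V (hf _) _))
  have hinj : Function.Injective fun q => p.ord (g q) := by
    have key : ∀ q q' : Fin j × Fin s, (q.1 : ℕ) < q'.1 → p.ord (g q) < p.ord (g q') := by
      intro q q' hlt
      rw [hgo, hgo]
      have h1 : p.ord (f q.2.castSucc) < p.ord (f (Fin.last s)) := hm (Fin.castSucc_lt_last _)
      have h2 : p.ord (f 0) ≤ p.ord (f q'.2.castSucc) := hm.monotone (Fin.zero_le _)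
      have h3 : p.ord (f 0) ≤ p.ord (f (Fin.last s)) := hm.monotone (Fin.zero_le _)
      obtain ⟨d, hd⟩ : ∃ d : ℕ, (q'.1 : ℕ) = q.1 + 1 + d := ⟨q'.1 - q.1 - 1, by omega⟩
      have h4 := q'.1.2
      have e1 : ((j - 1 - (q.1 : ℕ) : ℕ) : ℤ) = j - 1 - (q.1 : ℕ) := by omega
      have e2 : ((j - 1 - (q'.1 : ℕ) : ℕ) : ℤ) = j - 1 - ((q.1 : ℕ) + 1 + d) := by omega
      have e3 : ((q'.1 : ℕ) : ℤ) = (q.1 : ℕ) + 1 + d := by exact_mod_cast hd
      rw [e1, e2, e3]
      have h5 : (0 : ℤ) ≤ d * (p.ord (f (Fin.last s)) - p.ord (f 0)) := mul_nonneg (by positivity) (by linarith)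
      nlinarith
    intro q q' hqq
    have h1 : (q.1 : ℕ) = q'.1 := by
      rcases lt_trichotomy (q.1 : ℕ) q'.1 with h | h | h
      · exact absurd hqq (key q q' h).ne
      · exact h
      · exact absurd hqq.symm (key q' q h).ne
    have h2 : q.1 = q'.1 := Fin.ext h1
    have h3 : p.ord (g q) = p.ord (g q') := hqq
    rw [hgo, hgo, h2] at h3
    have h4 : p.ord (f q.2.castSucc) = p.ord (f q'.2.castSucc) := by linarith
    have h5 : q.2.castSucc = q'.2.castSucc := hm.injective h4
    exact Prod.ext h2 (Fin.castSucc_injective _ h5)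
  have h1 : LinearIndependent F fun q => (⟨g q, hgm q⟩ : W) :=
    LinearIndependent.of_comp W.subtype (ord_ind p g hg0 hinj)
  have h2 := h1.fintype_card_le_finrank
  rwa [Fintype.card_prod, Fintype.card_fin, Fintype.card_fin] at h2

/-- **the growth of the powers of a space** -/
theorem pow_rank (p : Place F E) (hp : 0 < deg p) {V W : Submodule F E} [FiniteDimensional F V]
    [FiniteDimensional F W] {j : ℕ} (hW : V ^ j ≤ W) :
    j * Module.finrank F V ≤ deg p * (Module.finrank F W + j) := by
  classical
  have hfin := os_fin p V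
  have h1 := rk_le p hp hfin.toFinset V inferInstance (fun v hv h0 => by
    rw [Set.Finite.mem_toFinset]
    exact ⟨v, hv, h0, rfl⟩)
  rcases Nat.eq_zero_or_pos hfin.toFinset.card with h2 | h2
  · rw [h2, mul_zero] at h1
    have h3 : Module.finrank F V = 0 := by omega
    rw [h3, mul_zero]
    exact Nat.zero_le _
  · obtain ⟨s, hs⟩ : ∃ s, hfin.toFinset.card = s + 1 := ⟨_, (Nat.succ_pred_eq_of_pos h2).symm⟩
    let e := hfin.toFinset.orderEmbOfFin hs
    have he : ∀ i, e i ∈ Os p V := fun i => (Set.Finite.mem_toFinset hfin).1 (Finset.orderEmbOfFin_mem _ hs i)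
    choose f hf h0 ho using he
    have h3 := pow_ge p hW f hf h0 (fun a b hab => by
      show p.ord (f a) < p.ord (f b)
      rw [ho, ho]
      exact e.strictMono hab)
    rw [hs] at h1
    calc j * Module.finrank F V ≤ j * (deg p * (s + 1)) := Nat.mul_le_mul_left _ h1
      _ = deg p * (j * s + j) := by ring
      _ ≤ _ := Nat.mul_le_mul_left _ (by omega)

end Pool.Agent.H36.ZO
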