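import Pool.Agent.H36.ZO.Kro
import Pool.Agent.H36.ZO.Ord
import Pool.Agent.H24.TU.RFG

/-!
# [H36 ZO Rk] THEOREM Z0 (MP_e49dc9_ag): the rank over `k(ψ)` of the spaces of sections

`rk F D` = the dimension of the space over `F` which is generated by the sections of `D`.
-/

set_option autoImplicit false

namespace Pool.Agent.H36.ZO

open Pool.Agent.H54.RV Pool.Agent.H83.TU
open scoped IntermediateField.algebraAdjoinAdjoin

variable {k κ : Type} [Field k] [Field κ] [Algebra k κ] {Y : Mod k κ}

/-- the dimension of the space over `F` which is generated by the sections of `D` -/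
noncomputable def rk (F : IntermediateField k κ) (D : Cart Y) : ℕ :=
  Module.finrank F (Submodule.span F (secL D 1 : Set κ))

theorem sec_mul1 {D E : Cart Y} {a b : κ} (ha : a ∈ secL D 1) (hb : b ∈ secL E 1) : a * b ∈ secL (D * E) 1 := by
  intro x
  have h1 := (Y.O x).mul_mem (ha x) (hb x)
  have h2 : a * b * (D * E).eq x ^ 1 = a * D.eq x ^ 1 * (b * E.eq x ^ 1) := by
    rw [mul_eq]
    ring
  rw [h2]
  exact h1

theorem span_fin (F : IntermediateField k κ) (D : Cart Y) [FiniteDimensional k (secL D 1)] :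
    FiniteDimensional F (Submodule.span F (secL D 1 : Set κ)) :=
  Pool.Agent.H24.TU.lf_fin D F 1 inferInstance

theorem rk_step {D G : Cart Y} {σ₀ σ₁ ψ : κ} (h₀ : σ₀ ∈ secL G 1) (h₁ : σ₁ ∈ secL G 1) (hne : σ₀ ≠ 0)
    (hσ : σ₁ = σ₀ * ψ) (hψ : Transcendental k ψ) [FiniteDimensional k (secL D 1)]
    [FiniteDimensional k (secL (D * G) 1)] :
    rk (IntermediateField.adjoin k {ψ}) D + h0 D 1 ≤ h0 (D * G) 1 := by
  have h2 := kro hψ (secL D 1)
  refine h2.trans ?_
  let m := LinearMap.mulLeft k σ₀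
  have hm : Function.Injective m := fun a b hab => mul_left_cancel₀ hne hab
  have h3 : Module.finrank k ((secL D 1 ⊔ (secL D 1).map (LinearMap.mulLeft k ψ)).map m) =
      Module.finrank k ↥(secL D 1 ⊔ (secL D 1).map (LinearMap.mulLeft k ψ)) :=
    ((secL D 1 ⊔ (secL D 1).map (LinearMap.mulLeft k ψ)).equivMapOfInjective m hm).finrank_eq.symm
  rw [← h3]
  refine Submodule.finrank_mono ?_
  rw [Submodule.map_sup, sup_le_iff]
  constructor
  · rintro _ ⟨a, ha, rfl⟩
    show σ₀ * a ∈ secL (D * G) 1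
    rw [mul_comm σ₀ a]
    exact sec_mul1 ha h₀
  · rintro _ ⟨_, ⟨a, ha, rfl⟩, rfl⟩
    show σ₀ * (ψ * a) ∈ secL (D * G) 1
    have h4 : σ₀ * (ψ * a) = a * σ₁ := by
      rw [hσ]
      ring
    rw [h4]
    exact sec_mul1 ha h₁

theorem span_mul_le (F : IntermediateField k κ) (D E : Cart Y) :
    Submodule.span F (secL D 1 : Set κ) * Submodule.span F (secL E 1 : Set κ) ≤
      Submodule.span F (secL (D * E) 1 : Set κ) := by
  rw [Submodule.span_mul_span, Submodule.span_le]
  rintro _ ⟨a, ha, b, hb, rfl⟩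
  exact Submodule.subset_span (sec_mul1 ha hb)

theorem span_pow_le (F : IntermediateField k κ) (D : Cart Y) (j : ℕ) :
    Submodule.span F (secL D 1 : Set κ) ^ j ≤ Submodule.span F (secL (D ^ j) 1 : Set κ) := by
  induction j with
  | zero =>
    rw [pow_zero, pow_zero, Submodule.one_le]
    refine Submodule.subset_span fun x => ?_
    rw [one_eq, one_pow, one_mul]
    exact (Y.O x).one_mem
  | succ j ih =>
    rw [pow_succ, pow_succ]
    exact (mul_le_mul_left ih _).trans (span_mul_le F _ _)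

theorem rk_pow_le (F : IntermediateField k κ) (p : Place F κ) (hp : 0 < deg p) {B D : Cart Y} {τ : κ}
    (hτ : τ ∈ secL (D * B⁻¹) 1) (hτ0 : τ ≠ 0) [FiniteDimensional k (secL B 1)] (j : ℕ)
    [FiniteDimensional k (secL (D ^ j) 1)] : j * rk F B ≤ deg p * (rk F (D ^ j) + j) := by
  have hV := span_fin F B
  have hW := span_fin F (D ^ j)
  let m := LinearMap.mulLeft F τ
  have hm : Function.Injective m := fun a b hab => mul_left_cancel₀ hτ0 hab
  obtain ⟨V, hVd⟩ : ∃ V, V = (Submodule.span F (secL B 1 : Set κ)).map m := ⟨_, rfl⟩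
  have h1 : Module.finrank F V = rk F B := by
    rw [hVd]
    exact ((Submodule.span F (secL B 1 : Set κ)).equivMapOfInjective m hm).finrank_eq.symm
  have hVf : FiniteDimensional F V := by rw [hVd]; infer_instance
  have h2 : V ≤ Submodule.span F (secL D 1 : Set κ) := by
    rw [hVd, Submodule.map_span, Submodule.span_le]
    rintro _ ⟨a, ha, rfl⟩
    refine Submodule.subset_span ?_
    show τ * a ∈ secL D 1
    have h3 := sec_mul1 hτ ha
    rwa [inv_mul_cancel_right] at h3
  have h3 : V ^ j ≤ Submodule.span F (secL (D ^ j) 1 : Set κ) :=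
    (pow_le_pow_left' h2 j).trans (span_pow_le F D j)
  have h4 := pow_rank p hp h3
  rw [h1] at h4
  exact h4

/-- linear dependence over `k(ψ)` with polynomial coefficients -/
theorem dep_poly {ψ : κ} {u : ℕ} (V : Submodule (IntermediateField.adjoin k {ψ}) κ)
    [FiniteDimensional (IntermediateField.adjoin k {ψ}) V]
    (hV : Module.finrank (IntermediateField.adjoin k {ψ}) V ≤ u) (s : Fin (u + 1) → κ) (hs : ∀ i, s i ∈ V) :
    ∃ p : Fin (u + 1) → Polynomial k, p ≠ 0 ∧ ∑ i, Polynomial.aeval ψ (p i) * s i = 0 := by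
  have h1 : ¬ LinearIndependent (IntermediateField.adjoin k {ψ}) s := by
    intro h1
    have h2 : LinearIndependent (IntermediateField.adjoin k {ψ}) fun i => (⟨s i, hs i⟩ : V) :=
      LinearIndependent.of_comp V.subtype h1
    have h3 := h2.fintype_card_le_finrank
    rw [Fintype.card_fin] at h3
    omega
  rw [← LinearIndependent.iff_fractionRing (Algebra.adjoin k {ψ})] at h1
  rw [Fintype.not_linearIndependent_iff] at h1
  obtain ⟨g, hg, i, hi⟩ := h1
  have h2 : ∀ i, ∃ q : Polynomial k, Polynomial.aeval ψ q = (g i : κ) := by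
    intro i
    have h3 : ∀ x ∈ Algebra.adjoin k {ψ}, ∃ q : Polynomial k, Polynomial.aeval ψ q = x := by
      intro x hx
      rw [Algebra.adjoin_singleton_eq_range_aeval] at hx
      exact hx
    exact h3 _ (g i).2
  choose p hp using h2
  refine ⟨p, fun h3 => hi ?_, ?_⟩
  · apply Subtype.ext
    show (g i : κ) = 0
    rw [← hp, h3]
    simp
  · rw [← hg]
    refine Finset.sum_congr rfl fun i _ => ?_
    rw [hp]
    rfl

theorem trdeg_adj {ψ : κ} (hψ : Transcendental k ψ) (htr : Algebra.trdeg k κ = 2) :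
    Algebra.trdeg (IntermediateField.adjoin k {ψ}) κ = 1 := by
  have hi : AlgebraicIndependent k ((↑) : ({ψ} : Set κ) → κ) :=
    (algebraicIndependent_unique_type_iff (ι := ({ψ} : Set κ)) (x := ((↑) : ({ψ} : Set κ) → κ))).2 hψ
  have h2 : Algebra.trdeg k (Algebra.adjoin k ({ψ} : Set κ)) = 1 := by
    have h3 := hi.aevalEquiv.trdeg_eq
    rw [MvPolynomial.trdeg_of_isDomain, Cardinal.lift_id, Cardinal.mk_singleton, Subtype.range_coe] at h3
    exact h3.symm
  have h4 : Algebra.trdeg (Algebra.adjoin k ({ψ} : Set κ)) (IntermediateField.adjoin k ({ψ} : Set κ)) = 0 := by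
    have h5 : Algebra.IsAlgebraic (Algebra.adjoin k ({ψ} : Set κ)) (IntermediateField.adjoin k ({ψ} : Set κ)) :=
      IsLocalization.isAlgebraic _ (nonZeroDivisors _)
    exact trdeg_eq_zero
  have h5 := trdeg_add_eq k (Algebra.adjoin k ({ψ} : Set κ)) (A := κ)
  have h6 := trdeg_add_eq (Algebra.adjoin k ({ψ} : Set κ)) (IntermediateField.adjoin k ({ψ} : Set κ)) (A := κ)
  rw [h4, zero_add] at h6
  rw [h2, htr, ← h6] at h5
  have h7 : (1 : Cardinal) + Algebra.trdeg (IntermediateField.adjoin k ({ψ} : Set κ)) κ = 1 + 1 := by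
    rw [h5]
    norm_num
  exact Cardinal.eq_of_add_eq_add_left h7 Cardinal.one_lt_aleph0

theorem place_ex [CharZero k] {ψ : κ} (hψ : Transcendental k ψ) (htr : Algebra.trdeg k κ = 2)
    (hfg : (⊤ : IntermediateField k κ).FG) :
    ∃ p : Place (IntermediateField.adjoin k {ψ}) κ, 0 < deg p := by
  have h1 := trdeg_adj hψ htr
  have : CharZero (IntermediateField.adjoin k {ψ}) :=
    charZero_of_injective_algebraMap (algebraMap k _).injective
  have h2 : (⊤ : IntermediateField (IntermediateField.adjoin k {ψ}) κ).FG := by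
    have h3 : Algebra.EssFiniteType k κ := IntermediateField.fg_top_iff.1 hfg
    have h4 : Algebra.EssFiniteType (IntermediateField.adjoin k {ψ}) κ := Algebra.EssFiniteType.of_comp k _ κ
    exact IntermediateField.fg_top_iff.2 h4
  have h3 : Algebra.Transcendental (IntermediateField.adjoin k {ψ}) κ := by
    rw [← trdeg_ne_zero_iff, h1]
    exact one_ne_zero
  obtain ⟨f, hf⟩ := h3.transcendental
  obtain ⟨p, -⟩ := exists_pole h1 h2 f hf
  exact ⟨p, deg_pos h1 h2 p⟩

end Pool.Agent.H36.ZO
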