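import Mathlib

/-!
# [H36 ZO Alg] THEOREM Z0 (MP_e49dc9_ag): two polynomial relations between two functions which are not both constant
-/

set_option autoImplicit false

namespace Pool.Agent.H36.ZO

open MvPolynomial

variable {k L : Type} [Field k] [Field L] [Algebra k L]

private theorem dvd_one {f : Fin 2 → L} (hf : Transcendental k (f 1)) {P Q : MvPolynomial (Fin 2) k} (hP : Irreducible P)
    (hP0 : aeval f P = 0) (hQ0 : aeval f Q = 0) : P ∣ Q := by
  classical
  let R := MvPolynomial (Fin 1) k
  let φ : R →ₐ[k] L := aeval fun _ => f 1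
  have hφ : Function.Injective φ := by
    have h1 : AlgebraicIndependent k (fun _ : Fin 1 => f 1) :=
      (algebraicIndependent_unique_type_iff (ι := Fin 1) (x := fun _ => f 1)).2 hf
    exact h1
  let F := FractionRing R
  let ψ : F →+* L := IsFractionRing.lift (K := F) (g := φ.toRingHom) hφ
  have hψ : ∀ r : R, ψ (algebraMap R F r) = φ r := fun r => IsFractionRing.lift_algebraMap hφ r
  let e := finSuccEquiv k 1
  have key : ∀ P : MvPolynomial (Fin 2) k, (((e P).map (algebraMap R F)).eval₂ ψ (f 0)) = aeval f P := by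
    intro P
    rw [Polynomial.eval₂_map]
    have h1 : ((Polynomial.eval₂RingHom (ψ.comp (algebraMap R F)) (f 0)).comp
        (e.toRingEquiv.toRingHom : MvPolynomial (Fin 2) k →+* Polynomial R)) =
        ((aeval f : MvPolynomial (Fin 2) k →ₐ[k] L).toRingHom : MvPolynomial (Fin 2) k →+* L) := by
      refine MvPolynomial.ringHom_ext (fun c => ?_) (fun i => ?_)
      · have h2 : e (C c) = Polynomial.C (C c) := by
          rw [show (C c : MvPolynomial (Fin 2) k) = algebraMap k _ c from rfl, AlgEquiv.commutes]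
          rfl
        have h3 : φ (C c) = algebraMap k L c := by
          rw [show (C c : R) = algebraMap k _ c from rfl, AlgHom.commutes]
        simp [h2, hψ, h3]
      · refine Fin.cases ?_ (fun j => ?_) i
        · simp [e, finSuccEquiv_X_zero]
        · have hj : j = 0 := Subsingleton.elim _ _
          subst hj
          have h2 : e (X (Fin.succ 0)) = Polynomial.C (X 0) := finSuccEquiv_X_succ
          have h3 : φ (X 0) = f 1 := aeval_X _ _
          show Polynomial.eval₂ (ψ.comp (algebraMap R F)) (f 0) (e (X (Fin.succ 0))) = aeval f (X (Fin.succ 0))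
          rw [h2, Polynomial.eval₂_C, RingHom.comp_apply, hψ, h3, aeval_X]
          rfl
    exact congrArg (fun g : MvPolynomial (Fin 2) k →+* L => g P) h1
  have hP' : Irreducible (e P) := (MulEquiv.irreducible_iff e.toMulEquiv).2 hP
  have hdeg : (e P).natDegree ≠ 0 := by
    intro h1
    obtain ⟨r, hr⟩ := Polynomial.natDegree_eq_zero.1 h1
    have h2 := key P
    rw [hP0, ← hr, Polynomial.map_C, Polynomial.eval₂_C, hψ] at h2
    have h3 : r = 0 := hφ (by rw [h2, map_zero])
    rw [h3, Polynomial.C_0] at hr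
    exact hP'.ne_zero hr.symm
  have hprim : (e P).IsPrimitive := hP'.isPrimitive hdeg
  have hirr : Irreducible ((e P).map (algebraMap R F)) :=
    (Polynomial.IsPrimitive.irreducible_iff_irreducible_map_fraction_map hprim).1 hP'
  have hd : (e P).map (algebraMap R F) ∣ (e Q).map (algebraMap R F) := by
    by_contra hnd
    have hc := (hirr.coprime_iff_not_dvd).2 hnd
    obtain ⟨a, b, hab⟩ := hc
    have h1 := congrArg (Polynomial.eval₂ ψ (f 0)) hab
    rw [Polynomial.eval₂_add, Polynomial.eval₂_mul, Polynomial.eval₂_mul, key, key, hP0, hQ0, mul_zero, mul_zero,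
      add_zero, Polynomial.eval₂_one] at h1
    exact zero_ne_one h1
  have hd' : e P ∣ e Q := hprim.dvd_of_fraction_map_dvd_fraction_map hd
  exact (map_dvd_iff e).1 hd'

/-- an irreducible relation divides all relations -/
theorem rel_dvd {f : Fin 2 → L} (hf : ∃ i, Transcendental k (f i)) {P Q : MvPolynomial (Fin 2) k} (hP : Irreducible P)
    (hP0 : aeval f P = 0) (hQ0 : aeval f Q = 0) : P ∣ Q := by
  obtain ⟨i, hi⟩ := hf
  by_cases h1 : i = 1
  · subst h1
    exact dvd_one hi hP hP0 hQ0
  · have h0 : i = 0 := by omega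
    subst h0
    let s : Fin 2 ≃ Fin 2 := Equiv.swap 0 1
    let e := renameEquiv k s
    have hs : ∀ P : MvPolynomial (Fin 2) k, aeval (f ∘ s) (e P) = aeval f P := by
      intro P
      rw [renameEquiv_apply, aeval_rename]
      congr 2
      funext j
      simp [s]
    have h2 := dvd_one (f := f ∘ s) (P := e P) (Q := e Q) (by simpa [s] using hi)
      ((MulEquiv.irreducible_iff e.toMulEquiv).2 hP) (by rw [hs, hP0]) (by rw [hs, hQ0])
    exact (map_dvd_iff e).1 h2

/-- Vandermonde -/
theorem vand_dvd {d : ℕ} {c : Fin (d + 1) → MvPolynomial (Fin 2) k} {P : MvPolynomial (Fin 2) k} {s : Finset k}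
    (hs : d < s.card) (h : ∀ t ∈ s, P ∣ ∑ i : Fin (d + 1), C (t ^ (i : ℕ)) * c i) (i : Fin (d + 1)) : P ∣ c i := by
  classical
  obtain ⟨u, hu, hcard⟩ := Finset.exists_subset_card_eq (Nat.succ_le_of_lt hs)
  let e := (u.equivFinOfCardEq hcard).symm
  let v : Fin (d + 1) → k := fun j => (e j : k)
  have hv : Function.Injective v := fun a b hab => e.injective (Subtype.ext hab)
  let V := Matrix.vandermonde v
  have hdet : IsUnit V.det := (Matrix.det_vandermonde_ne_zero_iff.2 hv).isUnit
  have hVV : V⁻¹ * V = 1 := Matrix.nonsing_inv_mul V hdet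
  have h1 : ∀ j, P ∣ ∑ i, C (V j i) * c i := fun j => h (v j) (hu (e j).2)
  have h2 : c i = ∑ j, C (V⁻¹ i j) * ∑ i', C (V j i') * c i' := by
    calc c i = ∑ i', C ((1 : Matrix (Fin (d + 1)) (Fin (d + 1)) k) i i') * c i' := by
          rw [Finset.sum_eq_single i]
          · simp
          · intro b _ hb
            rw [Matrix.one_apply_ne (Ne.symm hb), C_0, zero_mul]
          · simp
      _ = ∑ i', ∑ j, C (V⁻¹ i j) * (C (V j i') * c i') := by
          refine Finset.sum_congr rfl fun i' _ => ?_
          rw [← hVV, Matrix.mul_apply, map_sum, Finset.sum_mul]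
          refine Finset.sum_congr rfl fun j _ => ?_
          rw [C_mul, mul_assoc]
      _ = _ := by
          rw [Finset.sum_comm]
          refine Finset.sum_congr rfl fun j _ => ?_
          rw [Finset.mul_sum]
  rw [h2]
  exact Finset.dvd_sum fun j _ => Dvd.dvd.mul_left (h1 j) _

/-- a primitive algebraic relation -/
theorem exists_rel {f : Fin 2 → L} (hf : AlgebraicIndependent k f) {ψ : L}
    (hdep : ¬ AlgebraicIndependent k (Fin.cons ψ f : Fin 3 → L)) :
    ∃ (d : ℕ) (c : Fin (d + 1) → MvPolynomial (Fin 2) k), ∑ i, aeval f (c i) * ψ ^ (i : ℕ) = 0 ∧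
      ∀ P, Irreducible P → ∃ i, ¬ P ∣ c i := by
  classical
  let g : Fin 3 → L := Fin.cons ψ f
  obtain ⟨P0, hP00, hP0⟩ : ∃ P0 : MvPolynomial (Fin 3) k, aeval g P0 = 0 ∧ P0 ≠ 0 := by
    by_contra hcon
    push Not at hcon
    exact hdep ((injective_iff_map_eq_zero _).2 hcon)
  obtain ⟨P, hPi, hP⟩ : ∃ P : MvPolynomial (Fin 3) k, Irreducible P ∧ aeval g P = 0 := by
    have key : ∀ s : Multiset (MvPolynomial (Fin 3) k), (∀ q ∈ s, Irreducible q) → aeval g s.prod = 0 →
        ∃ P : MvPolynomial (Fin 3) k, Irreducible P ∧ aeval g P = 0 := by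
      intro s hs h0
      rw [map_multiset_prod, Multiset.prod_eq_zero_iff, Multiset.mem_map] at h0
      obtain ⟨q, hq, hq0⟩ := h0
      exact ⟨q, hs q hq, hq0⟩
    have hu := UniqueFactorizationMonoid.exists_prime_factors P0 hP0
    obtain ⟨s, hs, hass⟩ := hu
    refine key s (fun q hq => (hs q hq).irreducible) ?_
    obtain ⟨w, hw⟩ := hass
    have h1 : aeval g s.prod * aeval g (w : MvPolynomial (Fin 3) k) = 0 := by rw [← map_mul, hw, hP00]
    have h2 : aeval g (w : MvPolynomial (Fin 3) k) ≠ 0 := (w.isUnit.map (aeval g)).ne_zero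
    exact (mul_eq_zero.1 h1).resolve_right h2
  let e := finSuccEquiv k 2
  have key : ∀ P : MvPolynomial (Fin 3) k, (e P).eval₂ (aeval f : MvPolynomial (Fin 2) k →ₐ[k] L).toRingHom ψ = aeval g P := by
    intro P
    have h1 : ((Polynomial.eval₂RingHom (aeval f : MvPolynomial (Fin 2) k →ₐ[k] L).toRingHom ψ).comp
        (e.toRingEquiv.toRingHom : MvPolynomial (Fin 3) k →+* Polynomial (MvPolynomial (Fin 2) k))) =
        ((aeval g : MvPolynomial (Fin 3) k →ₐ[k] L).toRingHom : MvPolynomial (Fin 3) k →+* L) := by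
      refine MvPolynomial.ringHom_ext (fun c => ?_) (fun i => ?_)
      · have h2 : e (C c) = Polynomial.C (C c) := by
          rw [show (C c : MvPolynomial (Fin 3) k) = algebraMap k _ c from rfl, AlgEquiv.commutes]
          rfl
        simp [h2]
      · refine Fin.cases ?_ (fun j => ?_) i
        · simp [e, finSuccEquiv_X_zero, g]
        · have h2 : e (X (Fin.succ j)) = Polynomial.C (X j) := finSuccEquiv_X_succ
          show Polynomial.eval₂ (aeval f : MvPolynomial (Fin 2) k →ₐ[k] L).toRingHom ψ (e (X (Fin.succ j))) =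
            aeval g (X (Fin.succ j))
          rw [h2, Polynomial.eval₂_C]
          show aeval f (X j) = aeval g (X (Fin.succ j))
          rw [aeval_X, aeval_X]
          simp [g]
    exact congrArg (fun g : MvPolynomial (Fin 3) k →+* L => g P) h1
  have hP' : Irreducible (e P) := (MulEquiv.irreducible_iff e.toMulEquiv).2 hPi
  have hdeg : (e P).natDegree ≠ 0 := by
    intro h1
    obtain ⟨r, hr⟩ := Polynomial.natDegree_eq_zero.1 h1
    have h2 := key P
    rw [hP, ← hr, Polynomial.eval₂_C] at h2
    have h3 : r = 0 := hf (by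
      show aeval f r = aeval f 0
      rw [map_zero]
      exact h2)
    rw [h3, Polynomial.C_0] at hr
    exact hP'.ne_zero hr.symm
  have hprim : (e P).IsPrimitive := hP'.isPrimitive hdeg
  refine ⟨(e P).natDegree, fun i => (e P).coeff i, ?_, ?_⟩
  · have h1 := key P
    rw [hP, Polynomial.eval₂_eq_sum_range, Finset.sum_range] at h1
    exact h1
  · intro Q hQ
    by_contra hcon
    push Not at hcon
    refine hQ.not_isUnit (hprim Q ?_)
    rw [Polynomial.C_dvd_iff_dvd_coeff]
    intro i
    by_cases hi : i ≤ (e P).natDegree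
    · exact hcon ⟨i, Nat.lt_succ_of_le hi⟩
    · rw [Polynomial.coeff_eq_zero_of_natDegree_lt (not_le.1 hi)]
      exact dvd_zero _

end Pool.Agent.H36.ZO
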