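import Mathlib

/-!
# [H36 ZO Kro] THEOREM Z0 (MP_e49dc9_ag), T5a: `dim (O + ψ O) ≥ dim O + dim_{k(ψ)} k(ψ) O`

`k ⊆ L` fields, `ψ ∈ L` transcendental over `k`, `O` a finite dimensional subspace of `L`.
`o 0 = O`, `o (i + 1) = o i + ψ o i`: `dim o (i + 2) ≤ 2 dim o (i + 1) - dim o i`, so `dim o i ≤ dim O + i (dim o 1 - dim O)`;
`ψ ^ a v_j`, `a ≤ i`, for `v_j ∈ O` independent over `k(ψ)` are independent over `k` and in `o i`: `(i + 1) r ≤ dim o i`.
-/

set_option autoImplicit false

namespace Pool.Agent.H36.ZO

variable {k L : Type} [Field k] [Field L] [Algebra k L]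

/-- `O + ψ O + ... + ψ ^ i O` -/
private noncomputable def oi (ψ : L) (O : Submodule k L) : ℕ → Submodule k L
  | 0 => O
  | i + 1 => oi ψ O i ⊔ (oi ψ O i).map (LinearMap.mulLeft k ψ)

private theorem oi_le (ψ : L) (O : Submodule k L) (i : ℕ) : oi ψ O i ≤ oi ψ O (i + 1) := le_sup_left

private theorem oi_map (ψ : L) (O : Submodule k L) (i : ℕ) :
    (oi ψ O i).map (LinearMap.mulLeft k ψ) ≤ oi ψ O (i + 1) := le_sup_right

private theorem oi_fin (ψ : L) (O : Submodule k L) [FiniteDimensional k O] (i : ℕ) :
    FiniteDimensional k (oi ψ O i) := by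
  induction i with
  | zero => exact ‹FiniteDimensional k O›
  | succ i ih =>
    have := ih
    exact Submodule.finiteDimensional_sup _ _

private theorem oi_rec {ψ : L} (hψ : ψ ≠ 0) (O : Submodule k L) [FiniteDimensional k O] (i : ℕ) :
    Module.finrank k (oi ψ O (i + 2)) + Module.finrank k (oi ψ O i) ≤ 2 * Module.finrank k (oi ψ O (i + 1)) := by
  have h1 := oi_fin ψ O (i + 1)
  have h0 := oi_fin ψ O i
  let m := LinearMap.mulLeft k ψ
  have hm : Function.Injective m := fun a b hab => mul_left_cancel₀ hψ hab
  have hfr : ∀ j, Module.finrank k ((oi ψ O j).map m) = Module.finrank k (oi ψ O j) := fun j =>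
    ((oi ψ O j).equivMapOfInjective m hm).finrank_eq.symm
  have h2 : FiniteDimensional k ((oi ψ O (i + 1)).map m) := inferInstance
  have h3 := Submodule.finrank_sup_add_finrank_inf_eq (oi ψ O (i + 1)) ((oi ψ O (i + 1)).map m)
  have h4 : (oi ψ O i).map m ≤ oi ψ O (i + 1) ⊓ (oi ψ O (i + 1)).map m :=
    le_inf (oi_map ψ O i) (Submodule.map_mono (oi_le ψ O i))
  have h5 := Submodule.finrank_mono h4
  rw [hfr] at h5
  rw [hfr] at h3
  have h6 : Module.finrank k (oi ψ O (i + 2)) = Module.finrank k ↥(oi ψ O (i + 1) ⊔ (oi ψ O (i + 1)).map m) := rfl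
  omega

private theorem oi_lin {ψ : L} (hψ : ψ ≠ 0) (O : Submodule k L) [FiniteDimensional k O] (i : ℕ) :
    Module.finrank k (oi ψ O i) + i * Module.finrank k O ≤ Module.finrank k O + i * Module.finrank k (oi ψ O 1) := by
  have key : ∀ i, Module.finrank k (oi ψ O (i + 1)) + Module.finrank k O ≤
      Module.finrank k (oi ψ O i) + Module.finrank k (oi ψ O 1) := by
    intro i
    induction i with
    | zero =>
      have h1 : oi ψ O 0 = O := rfl
      rw [h1, zero_add]
      omega
    | succ i ih =>
      have h1 := oi_rec hψ O i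
      have h2 : Module.finrank k (oi ψ O (i + 1 + 1)) = Module.finrank k (oi ψ O (i + 2)) := rfl
      omega
  induction i with
  | zero =>
    have h1 : oi ψ O 0 = O := rfl
    rw [h1]
    omega
  | succ i ih =>
    have h1 := key i
    have h2 : (i + 1) * Module.finrank k O = i * Module.finrank k O + Module.finrank k O := by ring
    have h3 : (i + 1) * Module.finrank k (oi ψ O 1) = i * Module.finrank k (oi ψ O 1) + Module.finrank k (oi ψ O 1) := by
      ring
    omega

private theorem pow_mem {ψ : L} {O : Submodule k L} {v : L} (hv : v ∈ O) (a : ℕ) : ψ ^ a * v ∈ oi ψ O a := by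
  induction a with
  | zero =>
    rw [pow_zero, one_mul]
    exact hv
  | succ a ih =>
    have h1 : ψ ^ (a + 1) * v = LinearMap.mulLeft k ψ (ψ ^ a * v) := by
      rw [LinearMap.mulLeft_apply, pow_succ]
      ring
    rw [h1]
    exact oi_map ψ O a (Submodule.mem_map_of_mem ih)

private theorem oi_mono (ψ : L) (O : Submodule k L) : Monotone (oi ψ O) :=
  monotone_nat_of_le_succ (oi_le ψ O)

/-- the powers of a transcendental element are independent -/
private theorem pow_ind {A : Type} [CommRing A] [Algebra k A] {x : A} (hx : Transcendental k x) :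
    LinearIndependent k fun a : ℕ => x ^ a := by
  have h1 := (Polynomial.basisMonomials k).linearIndependent
  have h2 : LinearMap.ker (Polynomial.aeval x : Polynomial k →ₐ[k] A).toLinearMap = ⊥ :=
    LinearMap.ker_eq_bot.2 (transcendental_iff_injective.1 hx)
  have h3 := h1.map' _ h2
  have h4 : (fun a : ℕ => x ^ a) = ⇑(Polynomial.aeval x : Polynomial k →ₐ[k] A).toLinearMap ∘ ⇑(Polynomial.basisMonomials k) := by
    funext a
    simp
  rw [h4]
  exact h3

/-- T5a -/
theorem kro {ψ : L} (hψ : Transcendental k ψ) (O : Submodule k L) [FiniteDimensional k O] :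
    Module.finrank (IntermediateField.adjoin k {ψ}) (Submodule.span (IntermediateField.adjoin k {ψ}) (O : Set L)) +
      Module.finrank k O ≤ Module.finrank k ↥(O ⊔ O.map (LinearMap.mulLeft k ψ)) := by
  classical
  set F := IntermediateField.adjoin k {ψ} with hF
  have hψ0 : ψ ≠ 0 := fun h0 => hψ (h0 ▸ isAlgebraic_zero)
  let x : F := ⟨ψ, IntermediateField.mem_adjoin_simple_self k ψ⟩
  have hx : Transcendental k x := by
    intro h1
    exact hψ (h1.algHom F.val)
  obtain ⟨b, hbO, hbs, hbi⟩ := exists_linearIndependent F (O : Set L)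
  have hfs : FiniteDimensional F (Submodule.span F (O : Set L)) := by
    obtain ⟨s, hs⟩ := (Submodule.fg_iff_finiteDimensional O).2 inferInstance
    have h1 : Submodule.span F (O : Set L) = Submodule.span F (s : Set L) := by
      refine le_antisymm (Submodule.span_le.2 ?_) (Submodule.span_mono ?_)
      · rw [← hs]
        intro v hv
        exact Submodule.span_le_restrictScalars k F (s : Set L) hv
      · rw [← hs]
        exact Submodule.subset_span
    rw [h1]
    exact FiniteDimensional.span_finset F s
  have hr : Module.finrank F (Submodule.span F (O : Set L)) = Nat.card b := by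
    rw [← hbs]
    have h1 := Module.finrank_eq_nat_card_basis (Module.Basis.span hbi)
    rw [Subtype.range_coe] at h1
    exact h1
  have hbfin : Finite b := by
    have h1 : FiniteDimensional F (Submodule.span F b) := by rw [hbs]; exact hfs
    have h2 : FiniteDimensional F (Submodule.span F (Set.range ((↑) : b → L))) := by
      rw [Subtype.range_coe]; exact h1
    exact Module.Finite.finite_basis (Module.Basis.span hbi)
  have := Fintype.ofFinite b
  rw [hr, Nat.card_eq_fintype_card]
  set r := Fintype.card b with hrr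
  have hpow : ∀ i : ℕ, (i + 1) * r ≤ Module.finrank k (oi ψ O i) := by
    intro i
    have h1 : LinearIndependent k fun a : Fin (i + 1) => x ^ (a : ℕ) := (pow_ind hx).comp _ Fin.val_injective
    have h2 : LinearIndependent k fun p : Fin (i + 1) × b => (x ^ (p.1 : ℕ)) • (p.2 : L) := linearIndependent_smul h1 hbi
    have h3 : ∀ p : Fin (i + 1) × b, (x ^ (p.1 : ℕ)) • (p.2 : L) ∈ oi ψ O i := fun p => by
      have h4 : (x ^ (p.1 : ℕ)) • (p.2 : L) = ψ ^ (p.1 : ℕ) * (p.2 : L) := by
        rw [Algebra.smul_def, map_pow]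
        rfl
      rw [h4]
      exact oi_mono ψ O (Nat.lt_succ_iff.1 p.1.2) (pow_mem (hbO p.2.2) _)
    have h5 : LinearIndependent k fun p : Fin (i + 1) × b => (⟨_, h3 p⟩ : oi ψ O i) := by
      refine LinearIndependent.of_comp (oi ψ O i).subtype ?_
      exact h2
    have := oi_fin ψ O i
    have h6 := h5.fintype_card_le_finrank
    rwa [Fintype.card_prod, Fintype.card_fin] at h6
  by_contra hcon
  push Not at hcon
  set D := Module.finrank k ↥(O ⊔ O.map (LinearMap.mulLeft k ψ)) with hD
  have h1 : ∀ i : ℕ, (i + 1) * r + i * Module.finrank k O ≤ Module.finrank k O + i * D := fun i => by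
    have h2 := oi_lin hψ0 O i
    have h3 : Module.finrank k (oi ψ O 1) = D := rfl
    rw [h3] at h2
    have h4 := hpow i
    omega
  have h2 := h1 (Module.finrank k O + 1)
  nlinarith

end Pool.Agent.H36.ZO
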